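import Pool.Agent.N139.FG.Stm

set_option autoImplicit false

/-! Leaf REG of project FG (helper139): the reduced group C*-algebra of a countable group with its
canonical trace. Written by helper331. -/

namespace Pool.Agent.N331.FG

open N139.FG TopologicalSpace
open scoped InnerProductSpace

noncomputable section

variable (G : Type) [Group G]

/-- The Hilbert space `ℓ²(G)`. -/
abbrev H : Type := lp (fun _ : G => ℂ) 2

/-- Its standard basis. -/
def bas : HilbertBasis G ℂ (H G) := HilbertBasis.ofRepr (LinearIsometryEquiv.refl ℂ _)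

theorem orth (g : G) : Orthonormal ℂ (fun x => bas G (g * x)) :=
  (bas G).orthonormal.comp _ (mul_right_injective g)

theorem dns (g : G) :
    ⊤ ≤ (Submodule.span ℂ (Set.range fun x => bas G (g * x))).topologicalClosure := by
  have h : Set.range (fun x => bas G (g * x)) = Set.range (bas G) := by
    ext y
    constructor
    · rintro ⟨x, rfl⟩
      exact ⟨_, rfl⟩
    · rintro ⟨x, rfl⟩
      exact ⟨g⁻¹ * x, by simp⟩
  rw [h, (bas G).dense_span]

/-- The translated basis. -/
def tb (g : G) : HilbertBasis G ℂ (H G) := HilbertBasis.mk (orth G g) (dns G g)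

/-- Left translation. -/
def U (g : G) : H G ≃ₗᵢ[ℂ] H G := (bas G).repr.trans (tb G g).repr.symm

theorem U_bas (g x : G) : U G g (bas G x) = bas G (g * x) := by
  classical
  rw [U, LinearIsometryEquiv.trans_apply, HilbertBasis.repr_self, HilbertBasis.repr_symm_single, tb,
    HilbertBasis.coe_mk]

/-- Left translation as an operator. -/
def lam0 (g : G) : H G →L[ℂ] H G := (U G g).toContinuousLinearEquiv.toContinuousLinearMap

theorem lam0_apply (g : G) (x : H G) : lam0 G g x = U G g x := rfl

omit [Group G] in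
theorem ext_bas {a b : H G →L[ℂ] H G} (h : ∀ x, a (bas G x) = b (bas G x)) : a = b := by
  refine ContinuousLinearMap.ext_on (s := Set.range (bas G)) ?_ ?_
  · rw [Submodule.dense_iff_topologicalClosure_eq_top]
    exact (bas G).dense_span
  · rintro _ ⟨x, rfl⟩
    exact h x

theorem lam0_one : lam0 G 1 = 1 := by
  apply ext_bas
  intro x
  rw [lam0_apply, U_bas, one_mul]
  rfl

theorem lam0_mul (g h : G) : lam0 G (g * h) = lam0 G g * lam0 G h := by
  apply ext_bas
  intro x
  rw [lam0_apply, U_bas, mul_apply_eq_comp, lam0_apply, lam0_apply, U_bas, U_bas,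
    mul_assoc]

theorem lam0_star (g : G) : lam0 G g⁻¹ = star (lam0 G g) := by
  rw [ContinuousLinearMap.star_eq_adjoint, ContinuousLinearMap.eq_adjoint_iff]
  intro x y
  have h : lam0 G g (lam0 G g⁻¹ x) = x := by
    rw [← mul_apply_eq_comp, ← lam0_mul, mul_inv_cancel, lam0_one]
    rfl
  calc ⟪lam0 G g⁻¹ x, y⟫_ℂ = ⟪U G g (lam0 G g⁻¹ x), U G g y⟫_ℂ :=
        ((U G g).inner_map_map _ _).symm
    _ = ⟪x, lam0 G g y⟫_ℂ := by rw [← lam0_apply, h]; rfl

/-- The trace on all operators. -/
def tau0 : (H G →L[ℂ] H G) →L[ℂ] ℂ :=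
  (innerSL ℂ (bas G 1)).comp (ContinuousLinearMap.apply ℂ (H G) (bas G 1))

theorem tau0_lam (g : G) [DecidableEq G] : tau0 G (lam0 G g) = if g = 1 then 1 else 0 := by
  change ⟪bas G 1, lam0 G g (bas G 1)⟫_ℂ = _
  rw [lam0_apply, U_bas, mul_one]
  have := (bas G).orthonormal
  rw [orthonormal_iff_ite] at this
  rw [this]
  simp [eq_comm]

/-- The group as a homomorphism into the operators. -/
def lamH : G →* (H G →L[ℂ] H G) where
  toFun := lam0 G
  map_one' := lam0_one G
  map_mul' := lam0_mul G

/-- The star algebra generated by the translations. -/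
def A0 : StarSubalgebra ℂ (H G →L[ℂ] H G) := StarAlgebra.adjoin ℂ (Set.range (lam0 G))

theorem A0_span : (A0 G : Set (H G →L[ℂ] H G)) = Submodule.span ℂ (Set.range (lam0 G)) := by
  have h := StarAlgebra.adjoin_eq_span (R := ℂ) (Set.range (lam0 G))
  have h1 : Set.range (lam0 G) ∪ star (Set.range (lam0 G)) = (MonoidHom.mrange (lamH G) : Set _) := by
    ext a
    simp only [Set.mem_union, Set.mem_range, Set.mem_star, SetLike.mem_coe, MonoidHom.mem_mrange]
    constructor
    · rintro (⟨g, rfl⟩ | ⟨g, hg⟩)
      · exact ⟨g, rfl⟩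
      · refine ⟨g⁻¹, ?_⟩
        change lam0 G g⁻¹ = a
        rw [lam0_star, hg, star_star]
    · rintro ⟨g, rfl⟩
      exact Or.inl ⟨g, rfl⟩
  rw [h1, Submonoid.closure_eq] at h
  have h2 : ((MonoidHom.mrange (lamH G) : Submonoid _) : Set (H G →L[ℂ] H G)) =
      Set.range (lam0 G) := by
    ext a
    simp only [SetLike.mem_coe, MonoidHom.mem_mrange, Set.mem_range]
    rfl
  rw [h2] at h
  rw [← h]
  rfl

/-- The reduced group C*-algebra. -/
def Cr : StarSubalgebra ℂ (H G →L[ℂ] H G) := (A0 G).topologicalClosure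

theorem Cr_coe : (Cr G : Set (H G →L[ℂ] H G)) =
    closure (Submodule.span ℂ (Set.range (lam0 G)) : Set _) := by
  rw [Cr, StarSubalgebra.topologicalClosure_coe, A0_span]

instance : IsClosed (Cr G : Set (H G →L[ℂ] H G)) := (A0 G).isClosed_topologicalClosure

theorem lam0_mem (g : G) : lam0 G g ∈ Cr G :=
  (A0 G).le_topologicalClosure (StarAlgebra.subset_adjoin ℂ _ ⟨g, rfl⟩)

theorem tr_lam (a : H G →L[ℂ] H G) (ha : a ∈ Cr G) (h : G) :
    tau0 G (a * lam0 G h) = tau0 G (lam0 G h * a) := by
  classical
  have hcl : IsClosed {a : H G →L[ℂ] H G | tau0 G (a * lam0 G h) = tau0 G (lam0 G h * a)} :=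
    isClosed_eq ((tau0 G).continuous.comp (continuous_id.mul continuous_const))
      ((tau0 G).continuous.comp (continuous_const.mul continuous_id))
  have hsub : (Submodule.span ℂ (Set.range (lam0 G)) : Set _) ⊆
      {a : H G →L[ℂ] H G | tau0 G (a * lam0 G h) = tau0 G (lam0 G h * a)} := by
    intro b hb
    induction hb using Submodule.span_induction with
    | mem x hx =>
      obtain ⟨g, rfl⟩ := hx
      change tau0 G (lam0 G g * lam0 G h) = tau0 G (lam0 G h * lam0 G g)
      rw [← lam0_mul, ← lam0_mul, tau0_lam, tau0_lam]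
      have : g * h = 1 ↔ h * g = 1 := mul_eq_one_comm
      simp only [this]
    | zero => simp
    | add x y _ _ hx hy =>
      simp only [Set.mem_ofPred_eq] at hx hy ⊢
      rw [add_mul, mul_add, map_add, map_add, hx, hy]
    | smul c x _ hx =>
      simp only [Set.mem_ofPred_eq] at hx ⊢
      rw [smul_mul_assoc, mul_smul_comm, map_smul, map_smul, hx]
  have := closure_minimal hsub hcl
  rw [← Cr_coe] at this
  exact this ha

theorem tr (a b : H G →L[ℂ] H G) (ha : a ∈ Cr G) (hb : b ∈ Cr G) :
    tau0 G (a * b) = tau0 G (b * a) := by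
  have hcl : IsClosed {b : H G →L[ℂ] H G | tau0 G (a * b) = tau0 G (b * a)} :=
    isClosed_eq ((tau0 G).continuous.comp (continuous_const.mul continuous_id))
      ((tau0 G).continuous.comp (continuous_id.mul continuous_const))
  have hsub : (Submodule.span ℂ (Set.range (lam0 G)) : Set _) ⊆
      {b : H G →L[ℂ] H G | tau0 G (a * b) = tau0 G (b * a)} := by
    intro b hb
    induction hb using Submodule.span_induction with
    | mem x hx =>
      obtain ⟨g, rfl⟩ := hx
      exact tr_lam G a ha g
    | zero => simp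
    | add x y _ _ hx hy =>
      simp only [Set.mem_ofPred_eq] at hx hy ⊢
      rw [add_mul, mul_add, map_add, map_add, hx, hy]
    | smul c x _ hx =>
      simp only [Set.mem_ofPred_eq] at hx ⊢
      rw [smul_mul_assoc, mul_smul_comm, map_smul, map_smul, hx]
  have := closure_minimal hsub hcl
  rw [← Cr_coe] at this
  exact this hb

theorem sep [Countable G] : SeparableSpace (Cr G) := by
  have h : IsSeparable (Cr G : Set (H G →L[ℂ] H G)) := by
    rw [Cr_coe]
    exact ((Set.countable_range (lam0 G)).isSeparable.span (R := ℂ)).closure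
  exact h.separableSpace

/-- The trace on the reduced group C*-algebra. -/
def tau : Cr G →L[ℂ] ℂ where
  toFun a := tau0 G a
  map_add' a b := by simp
  map_smul' c a := by simp
  cont := (tau0 G).continuous.comp continuous_subtype_val

end

theorem t_REG : S_REG := by
  intro G _ _
  classical
  refine ⟨Cr G, inferInstance, sep G, fun g => ⟨lam0 G g, lam0_mem G g⟩, tau G, ?_, ?_, ?_, ?_, ?_, ?_⟩
  · exact Subtype.ext (lam0_one G)
  · intro g h
    exact Subtype.ext (lam0_mul G g h)
  · intro g
    exact Subtype.ext (lam0_star G g)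
  · intro a b
    exact tr G a b a.2 b.2
  · have h := tau0_lam G 1
    rw [lam0_one, if_pos rfl] at h
    exact h
  · intro g hg
    have h := tau0_lam G g
    rw [if_neg hg] at h
    exact h

end Pool.Agent.N331.FG
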